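import Pool.Agent.Helper52_CV.Ring

/-!
# Knots whose Jones polynomial is congruent to that of the unknot modulo
`((1 - t^N) ∏ S_{N-1}(tr w(t)))^k`

Diagrams (starting library `Pool.Agent.H891R2.Jones.Diagram`): `Diagram P` (oriented link diagrams with
marked points `P`), `Diagram.fPoly` (the normalised bracket `(-A^{-3})^{w(D)} ⟨D⟩`, `A = T 1`; it is the
Jones polynomial in `t = A^{-4} = T (-4)`), `Diagram.IsClosed` (the pieces of the diagram fit together
to closed oriented curves), `Outer m` (the part of an oriented diagram outside a box through which `m`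
strands run, with arbitrary directions).

Braid words (starting library `Pool.Agent.W639.RB.Defs`, `Pool.Agent.Y463.SK.Defs`):
`Letter m = Bool × Fin (m - 1)` (the letters `σ_i^{±1}`, `0 ≤ i < m - 1`; `(true, i)` is `σ_i`),
`dia O w` (the diagram with the braid word `w` in the box of `O`), `braidClosure m` (the outside of the
box for the usual closure of braids), `permW` (the permutation of a braid word), `IsPure` (the
permutation is trivial).

Here (`Pool.Agent.Helper52_CV.Defs`): `expSum` (the exponent sum of a braid word), `burauTrace w` (the
trace of the reduced Burau matrix of the `3`-braid word `w`, a Laurent polynomial in `t`), `slz` (the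
Burau matrices of the letters at `t = -1`, elements of `SL₂(ℤ)`).
-/

set_option autoImplicit false

namespace Pool.Agent.Results.MP_42db45_gt.CongruentToUnknot

open LaurentPolynomial Pool.Agent.H891R2.Jones Pool.Agent.W639.RB Pool.Agent.Y463.SK
  Pool.Agent.Helper52_CV

/-- Put `t = T (-4)`.  Let `N ≥ 1` and `k` be given, and let `W` be a finite list (which may be empty)
of `3`-braid words `w` with exponent sum `0` whose image in `SL₂(ℤ)` has a trace of absolute value at
least `3` (that is, `w` is pseudo-Anosov).  Let `M` be the product of `1 - t^N` and of the polynomials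
`S_{N-1}(tr w(t))`, `w ∈ W`, where `S_{N-1}` is the rescaled Chebyshev polynomial of the second kind
(`S_{N-1}(x + 1/x) = (x^N - x^{-N})/(x - x^{-1})`) and `tr w(t)` is the trace of the reduced Burau
matrix.  There are pure `4`-braid words `u 0, u 1, u 2, …` such that

* inserting `u i` at any place of a braid word drawn in a box of any oriented link diagram (with any
  directions of the four strands) does not change the normalised bracket modulo `M^k`, and does not
  change its image under any homomorphism to a commutative ring with at most `N` elements;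
* the closures of the `4`-braids `σ_0 σ_1 σ_2 u i` are knots (the permutation has a single cycle),
  their normalised brackets are congruent to `1` modulo `M^k`, they are mapped to `1` by every
  homomorphism to a commutative ring with at most `N` elements, and they are pairwise different (so
  all but at most one of these knots are nontrivial, and no two of them are equivalent). -/
theorem result (N k : ℕ) (hN : 1 ≤ N) (W : List (List (Letter 3)))
    (hW : ∀ w ∈ W, expSum w = 0 ∧ 3 ≤ |((w.map slz).prod).trace|) :
    ∃ u : ℕ → List (Letter 4),
    (∀ i, IsPure (u i)) ∧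
    (∀ i (O : Outer 4) (v w : List (Letter 4)),
      ((1 - T (-4) ^ N : ℤ[T;T⁻¹]) * (W.map fun w =>
        (Polynomial.Chebyshev.S ℤ[T;T⁻¹] ((N : ℤ) - 1)).eval (burauTrace w)).prod) ^ k ∣
          (dia O (v ++ u i ++ w)).fPoly - (dia O (v ++ w)).fPoly ∧
      ∀ (R : Type) [CommRing R] [Finite R] (φ : ℤ[T;T⁻¹] →+* R), Nat.card R ≤ N →
        φ (dia O (v ++ u i ++ w)).fPoly = φ (dia O (v ++ w)).fPoly) ∧
    (∀ i, (dia (braidClosure 4) ([(true, 0), (true, 1), (true, 2)] ++ u i)).IsClosed ∧
      (∀ x y, (permW ([(true, 0), (true, 1), (true, 2)] ++ u i)).SameCycle x y) ∧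
      ((1 - T (-4) ^ N : ℤ[T;T⁻¹]) * (W.map fun w =>
        (Polynomial.Chebyshev.S ℤ[T;T⁻¹] ((N : ℤ) - 1)).eval (burauTrace w)).prod) ^ k ∣
          (dia (braidClosure 4) ([(true, 0), (true, 1), (true, 2)] ++ u i)).fPoly - 1 ∧
      ∀ (R : Type) [CommRing R] [Finite R] (φ : ℤ[T;T⁻¹] →+* R), Nat.card R ≤ N →
        φ (dia (braidClosure 4) ([(true, 0), (true, 1), (true, 2)] ++ u i)).fPoly = 1) ∧
    Function.Injective
      (fun i => (dia (braidClosure 4) ([(true, 0), (true, 1), (true, 2)] ++ u i)).fPoly) :=
  Pool.Agent.Helper52_CV.main2 N k hN W hW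

end Pool.Agent.Results.MP_42db45_gt.CongruentToUnknot
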