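import Pool.Agent.H970_OD.A12

/-!
# Link diagrams with one dominated state

Definitions (starting library `Pool.Agent.H891R2`, files `Jones/Diagram`, `MT/Defs`, `DS/Defs`, `DS/Final`):

* `Ribbon k`: ribbon graphs with `k` edges; `Ribbon.Planar`: connected and planar; `Γ.link (sg R)`: the link
  diagram with Tait graph `Γ` and one crossing at every edge, of the kind `-1` for the edges in `R` and `1` for
  the others (every connected link diagram with at least one crossing is of this form); `Orients D U`: `D` is
  the unoriented diagram `U` with directions; `D.fPoly`: its normalised Kauffman bracket;
* a state is a set `S` of edges (the bands of `Γ` which are kept in the smoothing); `Asm R S`: the crossings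
  which have the `A`-smoothing in the state `S`; `stateGraph Γ S`: the state graph; its vertices are the circles
  of `S`, and every crossing is an edge between the circles which it touches;
* `EvenSet G X`: `X` is an even subgraph of `G`; `Dom G M`: every nonempty even subgraph (hence: every cycle) of
  `G` has at least two more edges outside `M` than in `M`;
* `Nugatory Γ e`: the crossing `e` is nugatory (a bridge of the Tait graph or of its dual).

New definitions (`Pool.Agent.H970_OD.A5`, `Pool.Agent.H970_OD.A7`):

* `Bip G`: the vertices of `G` can be coloured with two colours such that every edge joins vertices of
  different colours (this is the case if `S` is the Seifert state of an orientation of the diagram);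
* `Plus3 G M`: every even subgraph `X` of `G` which meets `M` has at least three more edges outside `M` than
  in `M`.

Proof (`Pool.Agent.H970_OD`): by inclusion-exclusion over the subgraphs `Y` without bridges of the state graph,
the bracket is, up to a unit `± A^n`, equal to `Q(A⁴) / (1 + A⁴)^b`, where `b` is the first Betti number of the
state graph and `Q` is a polynomial with constant term `1`; the subgraph `Y` contributes multiples of
`x^(|Y \ M| - |Y ∩ M| - n(Y))`, where `n(Y)` is its nullity, and this exponent is at least `1`.  So a unit needs
`Q = (1 + x)^b`.  Under `Plus3` the coefficient of `x` in `Q` is computed by the sets of parallel edges outside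
`M`, and it equals `b` only if the state graph is a tree after the identification of parallel edges; then it
is bipartite.  If the state graph is bipartite, then the derivative of the bracket at `A = 1` (a signed count
of functions modulo `2`) shows that a unit has exponent `4 |M| - 2 k`, whereas the lowest term has the exponent
`4 |M| - 2 v + 2`, where `v` is the number of circles of `S`; so `v = k + 1`, the state graph is a tree, and
all crossings are nugatory.
-/

set_option autoImplicit false

namespace Pool.Agent.Results.MP_42db45_gt.OneSidedDominated

open Finset LaurentPolynomial Pool.Agent.H891R2.Jones Pool.Agent.H891R2.MT Pool.Agent.H891R2.DS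
open Pool.Agent.H970.OD

/-- Let `D` be a connected link diagram with a crossing which is not nugatory, and let `S` be a state of `D`.
Let `M` be the set of the `A`-smoothed crossings of `S`, or the set of the `B`-smoothed crossings of `S`.
Suppose that every cycle of the state graph of `S` has at least two more crossings outside `M` than in `M`,
and that either the state graph is bipartite or every even subgraph which meets `M` has even at least three
more crossings outside `M` than in `M`. Then the normalised bracket of `D` is not of the form `± A^a`; in
particular, the Jones polynomial of `D` is not `1`.  (For `M = ∅` this is Stoimenow's theorem that semiadequate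
diagrams have a nontrivial Jones polynomial.) -/
theorem result {k : ℕ} (Γ : Ribbon k) (hΓ : Γ.Planar) (R S M : Finset (Fin k))
    (hM : M = Asm R S ∨ M = (Asm R S)ᶜ) (hdom : Dom (stateGraph Γ S) M)
    (hext : Bip (stateGraph Γ S) ∨ Plus3 (stateGraph Γ S) M) (hred : ∃ e, ¬ Nugatory Γ e)
    (D : Diagram (Ribbon.Pt (sg R))) (hD : Orients D (Γ.link (sg R))) :
    ∀ a : ℤ, D.fPoly ≠ T a ∧ D.fPoly ≠ -T a := by
  obtain ⟨h1, h2⟩ := final Γ hΓ R S M hM hdom hred D hD
  rcases hext with h | h
  · exact h1 h
  · intro a
    have h3 := h2 h 0 a
    simpa using h3

end Pool.Agent.Results.MP_42db45_gt.OneSidedDominated
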