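import Pool.Agent.H970_TF.Link4

/-!
# Powers of positive braids in a box with parallel strands

Diagrams (starting library `Pool.Agent.H891R2.Jones.Diagram`): `Diagram P` (oriented link diagrams with
marked points `P`, planar or not), `Diagram.fPoly` (the normalised bracket `(-A^{-3})^{w(D)} ⟨D⟩`, the Jones
polynomial with `t = A^{-4}`), `Diagram.IsClosed` (the pieces of the diagram fit together to closed oriented
curves), `Outer m` (the part of an oriented diagram outside a box through which `m` strands run; `O.up j`:
the `j`-th strand is directed upwards), `Outer.close` (the box is filled with vertical strands).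

Braid words (starting library `Pool.Agent.W639.RB.Defs`, `Pool.Agent.Y463.SK.Defs`):
`Letter m = Bool × Fin (m - 1)` (the letters `σ_i^{±1}`), `dia O w` (the diagram with the braid word `w` in
the box of `O`), `powW w n` (the word `w^n`, `n ∈ ℤ`), `IsPure` (the permutation is trivial).

New definition (`Pool.Agent.H970_TF.Defs`): `cross w a b`, the sum of the exponents of the letters of `w` in
which the strands of `w` starting at the places `a` and `b` cross; for a pure braid it is twice the linking
number of the two strands.

Proof (`Pool.Agent.H970_TF`).  For a pure braid `w` with normalised image `y` in the Temperley–Lieb algebra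
over `ℤ[A, A⁻¹]` one has `y ≡ 1 - (A - 1) δ` modulo `(A - 1)²`, where
`δ = ∑_k ε_k (4 + 2 w_k)`, the sum over the letters of `w`, `w_k` being `w` without the `k`-th letter.  So
the first differences of `n ↦ f(w^n v)` are `(A - 1) P_n` and the second differences `(A - 1)² Q_n`, where
`P_n(1) = - κ₁` and `Q_n(1) = κ` do not depend on `n` and are given by the values of `δ` and `δ²`.
Smoothing a crossing between parallel strands changes the number `c` of components by `±1`, and the value at
`A = 1` is `(-2)^{c - 1}`.  If two strands with a nonzero linking number belong to different components of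
the closure, this gives `κ₁ ≠ 0`; otherwise `κ ≠ 0`, as a sum over the pairs of letters in which all terms
have the same sign.  So the first or the second derivatives at `A = 1` of the `f(w^n v)` take no value three
times.
-/

set_option autoImplicit false

namespace Pool.Agent.Results.MP_42db45_gt.TwistFamilies

open LaurentPolynomial Pool.Agent.H891R2.Jones Pool.Agent.W639.RB Pool.Agent.Y463.SK
  Pool.Agent.H970.TF

/-- Let `O` be the outside of a box in a closed oriented link diagram, the `m` strands in the box being
parallel (all of them directed upwards).  Let `w` be a braid word on `m` strands and `r ≥ 1` such that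
`w^r` is a pure braid, every two strands of `w^r` having a linking number `≥ 0` and at least one of these
numbers being different from `0` (for example a pure braid `w` with this property and `r = 1`, such as the
full twist; or any nonempty word in the letters `σ_i` and the order `r` of its permutation).  Let `v` be any
braid word.  For `n ∈ ℤ` let `D(n)` be the closed oriented diagram obtained by putting the braid `w^n v` into
the box.

For every Laurent polynomial `F` at most `2 r` of the diagrams `D(n)`, `n ∈ ℤ`, have the normalised bracket
`F`.  In particular (`F = 1`) at most `2 r` of them have the Jones polynomial of the unknot. -/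
theorem result (m : ℕ) (O : Outer m) (hO : ∀ j, O.up j = true) (hc : O.close.IsClosed)
    (w v : List (Letter m)) (r : ℕ) (hr : 0 < r) (hw : IsPure (powW w r))
    (h0 : ∀ a b : Fin m, a ≠ b → 0 ≤ cross (powW w r) a b)
    (h1 : ∃ a b : Fin m, a ≠ b ∧ cross (powW w r) a b ≠ 0) :
    (∀ n : ℤ, (dia O (powW w n ++ v)).IsClosed) ∧
    ∀ F : ℤ[T;T⁻¹], {n : ℤ | (dia O (powW w n ++ v)).fPoly = F}.encard ≤ 2 * r := by
  have hm : 0 < m := h1.choose.pos
  have hpos : ∀ a b : Fin m, a ≠ b → 0 ≤ crossN m (powL (toN w) r) a b := by
    intro a b hab
    rw [← toN_pow, crossN_eq]
    exact h0 a b hab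
  have hne : ∃ a b : Fin m, a ≠ b ∧ crossN m (powL (toN w) r) a b ≠ 0 := by
    obtain ⟨a, b, hab, h⟩ := h1
    refine ⟨a, b, hab, ?_⟩
    rw [← toN_pow, crossN_eq]
    exact h
  have hp : permL (powL (toN w) r) = 1 := by
    rw [← toN_pow]
    exact permL_of_pure hw
  refine ⟨fun n => draw_closed _ O (toN_lt _) hO hc, fun F => ?_⟩
  refine le_trans (Set.encard_le_encard ?_) (at_most_general_link hm O hO
    (goodL_closed hm O hO hc) (toN w) (toN v) (toN_lt w) (toN_lt v) r hr hp hpos hne
    (Pool.Agent.H832R3.VJ.moment 1 F) (Pool.Agent.H832R3.VJ.moment 2 F))
  intro n hn
  rw [Set.mem_ofPred_eq] at hn ⊢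
  rw [dia_fPoly, toN_append, toN_pow] at hn
  rw [hn]
  exact ⟨rfl, rfl⟩

end Pool.Agent.Results.MP_42db45_gt.TwistFamilies
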