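import Pool.Agent.H970_TA.Final

/-!
# Closures of alternating braids followed by full twists

Diagrams (starting library `Pool.Agent.H891R2.Jones.Diagram`): `Diagram P` (oriented link diagrams),
`Diagram.bracket` (the Kauffman bracket, a Laurent polynomial in `A = T 1` with value `1` for the circle),
`Diagram.fPoly` (the normalised bracket `(-A^{-3})^{w(D)} ⟨D⟩`, the Jones polynomial with `t = A^{-4}`),
`Diagram.writhe`, `Diagram.IsClosed` (the pieces of the diagram fit together to closed oriented curves),
`Outer m` (the part of an oriented diagram outside the open part of a box through which `m` strands run),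
`Outer.twisted a` (the diagram obtained by filling the open part of the box with `a` full twists `Δ²` on
all `m` strands, `|a|` left-handed full twists for `a < 0`).

Braid words (starting library `Pool.Agent.W639.RB.Defs`): `Letter m = Bool × Fin (m - 1)` (the letters
`σ_i^{±1}` of the braid group on `m` strands, `true` for the exponent `1`), `draw O (toL w)` (the word `w`
drawn in the box of `O`), `braidClosure m` (the outside of the box for the usual closure of braids),
`perm w` (the permutation of a braid word).

Proof (`Pool.Agent.H970_TA`): one has
`-(A² + A⁻²) ⟨closure of α Δ^{2a}⟩ = ∑ j, U_j(-A² - A⁻²) A^{a (j (j + 2) - 3 m)} χ_j(α)`, where `U_j` are the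
Chebyshev polynomials and `χ_j(α)` is the trace of `α` on the link states with `j` strands to infinity (the
cell modules of the Temperley-Lieb algebra).  If `α` is alternating, then after a change of gauge all
letters act on the link states by matrices with nonnegative coefficients in `s = -A^{-4}`, so that
`χ_j(α) = A^e X_j(s)`, where `X_j` has nonnegative coefficients.  The two extreme coefficients
of the sum (for one direction of the twists at `s = ∞`, for the other one at `s = 0`) exclude a unit.
-/

set_option autoImplicit false

namespace Pool.Agent.Results.MP_42db45_gt.TwistedAlternatingBraids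

open Finset LaurentPolynomial Pool.Agent.H891R2.Jones Pool.Agent.W639.RB Pool.Agent.TH561
open Pool.Agent.H970.TA

theorem closure_closed (m : ℕ) : (braidClosure m).close.IsClosed := by
  classical
  rw [closed_iff]
  have h : ∀ x : Fin m, (univ.filter (fun j : Fin m => j = x)).card = 1 := by
    intro x
    rw [Finset.filter_eq' univ x, if_pos (Finset.mem_univ _), Finset.card_singleton]
  refine ⟨fun x => ?_, fun x => ?_⟩
  · simp only [Sst, braidClosure, id, List.map_nil, List.sum_nil]
    simp <;> convert h x
  · simp only [Sst, braidClosure, Outer.rev, id, List.map_nil, List.sum_nil]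
    simp <;> convert h x

theorem expo_toL {m l : ℕ} (w : Fin l → Letter m) :
    expo (toL w) = ∑ i, (if (w i).1 then (1 : ℤ) else -1) := by
  unfold expo toL
  rw [List.map_ofFn, List.sum_ofFn]
  rfl

/-- Let `m ≥ 3` and let `α` be an alternating braid on `m` strands, given by a word `w` in the letters
`σ_i^{±1}` in which all letters with an even `i` have the same exponent and all letters with an odd `i` have
the opposite exponent (`halt`).  Suppose that every generator occurs in `w` or that the closure of `α` is a
knot, that is, that the permutation of `w` is an `m`-cycle (`hall`).  Let `a` be any integer other than `0`.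
Then the closure of the braid `α Δ^{2a}` is a closed oriented diagram whose writhe is the exponent sum of `α`
plus `a m (m - 1)`, its Kauffman bracket is not of the form `± A^n`, and its normalised bracket is not `1`. -/
theorem result (m : ℕ) (hm : 3 ≤ m) (l : ℕ) (w : Fin l → Letter m) (s : Bool)
    (halt : ∀ i, (w i).1 = if ((w i).2 : ℕ) % 2 = 0 then s else !s)
    (hall : (∀ g : Fin (m - 1), ∃ i, (w i).2 = g) ∨ ∀ i j : Fin m, (perm w).SameCycle i j)
    (a : ℤ) (ha : a ≠ 0) :
    ((draw (braidClosure m) (toL w)).twisted a).IsClosed ∧
    ((draw (braidClosure m) (toL w)).twisted a).writhe =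
      ∑ i, (if (w i).1 then (1 : ℤ) else -1) + a * (m * (m - 1)) ∧
    (∀ n : ℤ, ((draw (braidClosure m) (toL w)).twisted a).bracket ≠ T n ∧
      ((draw (braidClosure m) (toL w)).twisted a).bracket ≠ -T n) ∧
    ((draw (braidClosure m) (toL w)).twisted a).fPoly ≠ 1 := by
  replace hall : ∀ g : Fin (m - 1), ∃ i, (w i).2 = g := by
    rcases hall with h | h
    · exact h
    · exact fun g => all_of_knot w h g
  have hmem := toL_mem w
  obtain ⟨hup, howr⟩ := draw_up _ (braidClosure m) hmem (fun _ => rfl)
  have hlink : (draw (braidClosure m) (toL w)).linking = m := by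
    unfold Outer.linking
    simp [hup]
  have hwr : ((draw (braidClosure m) (toL w)).twisted a).writhe =
      ∑ i, (if (w i).1 then (1 : ℤ) else -1) + a * (m * (m - 1)) := by
    rw [twist_writhe, close_writhe, howr, hlink, expo_toL]
    have : owr (braidClosure m) = 0 := rfl
    rw [this]
    ring
  have hA : Alt (toL w) := by
    refine ⟨if s then 0 else 1, by split_ifs <;> omega, fun x hx => ?_⟩
    unfold toL at hx
    rw [List.mem_ofFn] at hx
    obtain ⟨i, rfl⟩ := hx
    have h1 := halt i
    simp only
    rw [h1]
    cases s
    · simp only [Bool.false_eq_true, if_false]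
      split_ifs with h2
      · simp; omega
      · simp; omega
    · simp only [if_true]
      split_ifs with h2
      · simp [h2]
      · simp; omega
  have hall' : ∀ i, i + 1 < m → ∃ x ∈ toL w, x.2 = i := by
    intro i hi
    obtain ⟨k, hk⟩ := hall ⟨i, by omega⟩
    refine ⟨((w k).1, ((w k).2 : ℕ)), ?_, ?_⟩
    · unfold toL
      rw [List.mem_ofFn]
      exact ⟨k, rfl⟩
    · simp only [hk]
  have hne := bracket_ne hm (toL w) hmem hA hall' a ha
  have hne' : ∀ n : ℤ, ((draw (braidClosure m) (toL w)).twisted a).bracket ≠ T n ∧
        ((draw (braidClosure m) (toL w)).twisted a).bracket ≠ -T n := by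
    intro n
    refine ⟨fun h => hne 1 n ?_, fun h => hne (-1) n ?_⟩
    · rw [h, one_smul]
    · rw [h, neg_smul, one_smul]
  refine ⟨?_, hwr, hne', fun h => ?_⟩
  · exact twisted_closed _ (draw_closed _ _ hmem (fun _ => rfl) (closure_closed m)) a
  · unfold Diagram.fPoly at h
    generalize ((draw (braidClosure m) (toL w)).twisted a).writhe = v at h
    have hT : (T (3 * v) * T (-3 * v) : ℤ[T;T⁻¹]) = 1 := by
      rw [← T_add, ← T_zero]
      congr 1
      ring
    by_cases hv2 : Even v
    · rw [if_pos hv2, one_mul] at h
      apply (hne' (3 * v)).1
      calc _ = T (3 * v) * T (-3 * v) * ((draw (braidClosure m) (toL w)).twisted a).bracket := by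
            rw [hT, one_mul]
        _ = T (3 * v) * (T (-3 * v) * ((draw (braidClosure m) (toL w)).twisted a).bracket) := by ring
        _ = _ := by rw [h]; ring
    · rw [if_neg hv2] at h
      apply (hne' (3 * v)).2
      calc _ = T (3 * v) * T (-3 * v) * ((draw (braidClosure m) (toL w)).twisted a).bracket := by
            rw [hT, one_mul]
        _ = -T (3 * v) * (-1 * T (-3 * v) * ((draw (braidClosure m) (toL w)).twisted a).bracket) := by
            ring
        _ = _ := by rw [h]; ring

end Pool.Agent.Results.MP_42db45_gt.TwistedAlternatingBraids
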